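import Mathlib
import Pool.Agent.R402.HA.Stm

/-!
# Truncated Newtonian kernels (HA-KER)
-/

open MeasureTheory Set Filter Topology
open scoped ENNReal NNReal ContDiff Laplacian

namespace Pool.Agent.R193.HA

open Pool.Agent.R402.HA

/-- Laplacian of a radial function `S (‖x‖ ^ 2)`. -/
theorem laplacian_radial {n : ℕ} (S S1 S2 : ℝ → ℝ) (h1 : ∀ s, HasDerivAt S (S1 s) s)
    (h2 : ∀ s, HasDerivAt S1 (S2 s) s) (x : V n) :
    Δ (fun x : V n => S (‖x‖ ^ 2)) x
      = 4 * ‖x‖ ^ 2 * S2 (‖x‖ ^ 2) + 2 * n * S1 (‖x‖ ^ 2) := by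
  have hsq : ∀ x : V n, HasFDerivAt (fun x : V n => ‖x‖ ^ 2) (2 • (innerSL ℝ x)) x := by
    intro x
    exact (hasStrictFDerivAt_norm_sq x).hasFDerivAt
  have hf : ∀ x : V n, HasFDerivAt (fun x : V n => S (‖x‖ ^ 2))
      ((S1 (‖x‖ ^ 2)) • (2 • (innerSL ℝ x))) x := by
    intro x
    exact (h1 (‖x‖ ^ 2)).comp_hasFDerivAt x (hsq x)
  have hfd : fderiv ℝ (fun x : V n => S (‖x‖ ^ 2))
      = fun x => (S1 (‖x‖ ^ 2)) • (2 • (innerSL ℝ x)) := by
    funext x
    exact (hf x).fderiv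
  have hL : ∀ x : V n, HasFDerivAt (fun x : V n => (2 • (innerSL ℝ x) : V n →L[ℝ] ℝ))
      (2 • (innerSL ℝ : V n →L[ℝ] V n →L[ℝ] ℝ)) x := by
    intro x
    exact ((innerSL ℝ : V n →L[ℝ] V n →L[ℝ] ℝ).hasFDerivAt (x := x)).const_smul 2
  have hc : ∀ x : V n, HasFDerivAt (fun x : V n => S1 (‖x‖ ^ 2))
      ((S2 (‖x‖ ^ 2)) • (2 • (innerSL ℝ x))) x := by
    intro x
    exact (h2 (‖x‖ ^ 2)).comp_hasFDerivAt x (hsq x)
  have hff : ∀ x : V n, HasFDerivAt (fderiv ℝ (fun x : V n => S (‖x‖ ^ 2)))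
      ((S1 (‖x‖ ^ 2)) • (2 • (innerSL ℝ : V n →L[ℝ] V n →L[ℝ] ℝ))
        + ((S2 (‖x‖ ^ 2)) • (2 • (innerSL ℝ x) : V n →L[ℝ] ℝ)).smulRight
          (2 • (innerSL ℝ x) : V n →L[ℝ] ℝ)) x := by
    intro x
    rw [hfd]
    exact (hc x).smul (hL x)
  have hlap := congrFun (InnerProductSpace.laplacian_eq_iteratedFDeriv_orthonormalBasis
    (fun x : V n => S (‖x‖ ^ 2)) (EuclideanSpace.basisFun (Fin n) ℝ)) x
  rw [hlap]
  have hterm : ∀ i : Fin n, iteratedFDeriv ℝ 2 (fun x : V n => S (‖x‖ ^ 2)) x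
      ![EuclideanSpace.basisFun (Fin n) ℝ i, EuclideanSpace.basisFun (Fin n) ℝ i]
      = 4 * (x i) ^ 2 * S2 (‖x‖ ^ 2) + 2 * S1 (‖x‖ ^ 2) := by
    intro i
    rw [iteratedFDeriv_two_apply, (hff x).fderiv]
    have hone : ((innerSL ℝ) (EuclideanSpace.single i (1 : ℝ))) (EuclideanSpace.single i 1)
        = (1 : ℝ) := by
      rw [innerSL_apply_apply, EuclideanSpace.inner_single_left]
      simp
    simp [EuclideanSpace.basisFun_apply, EuclideanSpace.inner_single_right]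
    rw [hone]
    ring
  rw [Finset.sum_congr rfl (fun i _ => hterm i), Finset.sum_add_distrib, ← Finset.sum_mul,
    ← Finset.mul_sum, EuclideanSpace.real_norm_sq_eq]
  simp
  ring

/-- The cut-off `T`. -/
noncomputable def T (ε s : ℝ) : ℝ := Real.smoothTransition (2 * s / ε ^ 2 - 1)

theorem T_contDiff (ε : ℝ) : ContDiff ℝ ∞ (T ε) := by
  unfold T
  exact Real.smoothTransition.contDiff.comp (by fun_prop)

theorem T_nonneg (ε s : ℝ) : 0 ≤ T ε s := Real.smoothTransition.nonneg _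

theorem T_le_one (ε s : ℝ) : T ε s ≤ 1 := Real.smoothTransition.le_one _

theorem T_zero {ε s : ℝ} (hε : 0 < ε) (hs : s ≤ ε ^ 2 / 2) : T ε s = 0 := by
  unfold T
  apply Real.smoothTransition.zero_of_nonpos
  have : 0 < ε ^ 2 := by positivity
  rw [sub_nonpos, div_le_one this]
  linarith

theorem T_one {ε s : ℝ} (hε : 0 < ε) (hs : ε ^ 2 ≤ s) : T ε s = 1 := by
  unfold T
  apply Real.smoothTransition.one_of_one_le
  have : 0 < ε ^ 2 := by positivity
  rw [le_sub_iff_add_le, le_div_iff₀ this]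
  linarith

theorem T_mono {ε : ℝ} (hε : 0 < ε) : Monotone (T ε) := by
  intro a b hab
  unfold T
  apply Real.smoothTransition.monotone
  have : 0 < ε ^ 2 := by positivity
  gcongr

/-- The function `D`. -/
noncomputable def D (n : ℕ) (ε s : ℝ) : ℝ := ((n : ℝ) - 2) / 2 * (T ε s * s ^ (-(n : ℝ) / 2))

theorem D_zero {n : ℕ} {ε s : ℝ} (hε : 0 < ε) (hs : s ≤ ε ^ 2 / 2) : D n ε s = 0 := by
  unfold D
  rw [T_zero hε hs]
  simp

theorem D_contDiff (n : ℕ) {ε : ℝ} (hε : 0 < ε) : ContDiff ℝ ∞ (D n ε) := by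
  rw [contDiff_iff_contDiffAt]
  intro s
  have he : 0 < ε ^ 2 / 2 := by positivity
  rcases lt_or_ge s (ε ^ 2 / 2) with h | h
  · have hev : D n ε =ᶠ[𝓝 s] fun _ => (0 : ℝ) := by
      filter_upwards [Iio_mem_nhds h] with t ht
      exact D_zero hε (le_of_lt ht)
    exact contDiffAt_const.congr_of_eventuallyEq hev
  · have hs : s ≠ 0 := by
      have : 0 < s := lt_of_lt_of_le he h
      exact this.ne'
    unfold D
    exact contDiffAt_const.mul (((T_contDiff ε).contDiffAt).mul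
      (Real.contDiffAt_rpow_const_of_ne hs))

theorem D_nonneg {n : ℕ} (hn : 3 ≤ n) {ε : ℝ} (hε : 0 < ε) (s : ℝ) : 0 ≤ D n ε s := by
  rcases le_or_gt s (ε ^ 2 / 2) with h | h
  · rw [D_zero hε h]
  · have he : 0 < ε ^ 2 / 2 := by positivity
    have hs : 0 < s := lt_trans he h
    have hn' : (3 : ℝ) ≤ n := by exact_mod_cast hn
    unfold D
    have h1 := T_nonneg ε s
    have h2 : 0 ≤ s ^ (-(n : ℝ) / 2) := Real.rpow_nonneg hs.le _
    have h3 : 0 ≤ ((n : ℝ) - 2) / 2 := by linarith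
    positivity

theorem D_hasDerivAt {n : ℕ} {ε s : ℝ} (hs : 0 < s) :
    HasDerivAt (D n ε) (((n : ℝ) - 2) / 2 * (deriv (T ε) s * s ^ (-(n : ℝ) / 2)
      + T ε s * ((-(n : ℝ) / 2) * s ^ (-(n : ℝ) / 2 - 1)))) s := by
  unfold D
  have h1 : HasDerivAt (T ε) (deriv (T ε) s) s :=
    (((T_contDiff ε).differentiable (by simp)) s).hasDerivAt
  have h2 : HasDerivAt (fun s : ℝ => s ^ (-(n : ℝ) / 2))
      ((-(n : ℝ) / 2) * s ^ (-(n : ℝ) / 2 - 1)) s :=
    Real.hasDerivAt_rpow_const (Or.inl hs.ne')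
  exact (h1.mul h2).const_mul _

/-- The profile `S`. -/
noncomputable def S (n : ℕ) (ε s : ℝ) : ℝ :=
  (ε ^ 2) ^ (-((n : ℝ) - 2) / 2) - ∫ t in (ε ^ 2)..s, D n ε t

theorem S_hasDerivAt (n : ℕ) {ε : ℝ} (hε : 0 < ε) (s : ℝ) :
    HasDerivAt (S n ε) (-(D n ε s)) s := by
  have hc : Continuous (D n ε) := (D_contDiff n hε).continuous
  have h := intervalIntegral.integral_hasDerivAt_right (hc.intervalIntegrable (ε ^ 2) s)
    (hc.stronglyMeasurableAtFilter _ _) hc.continuousAt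
  unfold S
  have := h.const_sub ((ε ^ 2) ^ (-((n : ℝ) - 2) / 2))
  simpa using this

theorem S_contDiff (n : ℕ) {ε : ℝ} (hε : 0 < ε) : ContDiff ℝ ∞ (S n ε) := by
  rw [contDiff_infty_iff_deriv]
  refine ⟨fun s => (S_hasDerivAt n hε s).differentiableAt, ?_⟩
  have : deriv (S n ε) = fun s => -(D n ε s) := by
    funext s
    exact (S_hasDerivAt n hε s).deriv
  rw [this]
  exact (D_contDiff n hε).neg

theorem S_anti {n : ℕ} (hn : 3 ≤ n) {ε : ℝ} (hε : 0 < ε) : Antitone (S n ε) := by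
  apply antitone_of_deriv_nonpos
  · intro s
    exact (S_hasDerivAt n hε s).differentiableAt
  · intro s
    rw [(S_hasDerivAt n hε s).deriv]
    have := D_nonneg hn hε s
    linarith

theorem S_at (n : ℕ) (ε : ℝ) : S n ε (ε ^ 2) = (ε ^ 2) ^ (-((n : ℝ) - 2) / 2) := by
  simp [S]

/-- the difference `s ^ (-p) - S s`. -/
theorem H_hasDerivAt (n : ℕ) {ε s : ℝ} (hε : 0 < ε) (hs : 0 < s) :
    HasDerivAt (fun s => s ^ (-((n : ℝ) - 2) / 2) - S n ε s)
      (-(((n : ℝ) - 2) / 2 * ((1 - T ε s) * s ^ (-(n : ℝ) / 2)))) s := by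
  have h2 : HasDerivAt (fun s : ℝ => s ^ (-((n : ℝ) - 2) / 2))
      ((-((n : ℝ) - 2) / 2) * s ^ (-((n : ℝ) - 2) / 2 - 1)) s :=
    Real.hasDerivAt_rpow_const (Or.inl hs.ne')
  have h3 := h2.sub (S_hasDerivAt n hε s)
  have he : (-((n : ℝ) - 2) / 2 - 1) = -(n : ℝ) / 2 := by ring
  refine h3.congr_deriv ?_
  rw [he]
  unfold D
  ring

theorem S_le {n : ℕ} (hn : 3 ≤ n) {ε s : ℝ} (hε : 0 < ε) (hs : 0 < s) :
    S n ε s ≤ s ^ (-((n : ℝ) - 2) / 2) ∧ (ε ^ 2 ≤ s → S n ε s = s ^ (-((n : ℝ) - 2) / 2)) := by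
  have he : 0 < ε ^ 2 := by positivity
  have hn' : (3 : ℝ) ≤ n := by exact_mod_cast hn
  set H : ℝ → ℝ := fun s => s ^ (-((n : ℝ) - 2) / 2) - S n ε s with hH
  have hd : ∀ s, 0 < s → HasDerivAt H
      (-(((n : ℝ) - 2) / 2 * ((1 - T ε s) * s ^ (-(n : ℝ) / 2)))) s :=
    fun s hs => H_hasDerivAt n hε hs
  have hanti : AntitoneOn H (Ioi 0) := by
    apply antitoneOn_of_deriv_nonpos (convex_Ioi 0)
    · intro t ht
      exact (hd t ht).continuousAt.continuousWithinAt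
    · intro t ht
      rw [interior_Ioi] at ht
      exact (hd t ht).differentiableAt.differentiableWithinAt
    · intro t ht
      rw [interior_Ioi] at ht
      rw [(hd t ht).deriv]
      have h1 : 0 ≤ 1 - T ε t := by linarith [T_le_one ε t]
      have h2 : 0 ≤ t ^ (-(n : ℝ) / 2) := Real.rpow_nonneg (le_of_lt ht) _
      have h3 : 0 ≤ ((n : ℝ) - 2) / 2 := by linarith
      have : 0 ≤ ((n : ℝ) - 2) / 2 * ((1 - T ε t) * t ^ (-(n : ℝ) / 2)) := by positivity
      linarith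
  have hmono : MonotoneOn H (Ici (ε ^ 2)) := by
    apply monotoneOn_of_deriv_nonneg (convex_Ici _)
    · intro t ht
      exact (hd t (lt_of_lt_of_le he ht)).continuousAt.continuousWithinAt
    · intro t ht
      rw [interior_Ici] at ht
      exact (hd t (lt_trans he ht)).differentiableAt.differentiableWithinAt
    · intro t ht
      rw [interior_Ici] at ht
      rw [(hd t (lt_trans he ht)).deriv, T_one hε (le_of_lt ht)]
      simp
  have h0 : H (ε ^ 2) = 0 := by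
    simp only [hH]
    rw [S_at]
    ring
  rcases le_total s (ε ^ 2) with h | h
  · have h1 : H (ε ^ 2) ≤ H s := hanti hs he h
    refine ⟨?_, ?_⟩
    · rw [h0] at h1
      simp only [hH] at h1
      linarith
    · intro h'
      have : s = ε ^ 2 := le_antisymm h h'
      rw [this, S_at]
  · have h1 : H s ≤ H (ε ^ 2) := hanti he hs h
    have h2 : H (ε ^ 2) ≤ H s := hmono (mem_Ici.mpr le_rfl) h h
    rw [h0] at h1 h2
    have h3 : H s = 0 := le_antisymm h1 h2
    simp only [hH] at h3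
    exact ⟨by linarith, fun _ => by linarith⟩

theorem rpow_norm {n : ℕ} (hn : 3 ≤ n) {r : ℝ} (hr : 0 < r) :
    (r ^ 2) ^ (-((n : ℝ) - 2) / 2) = (r ^ (n - 2))⁻¹ := by
  rw [← Real.rpow_natCast r 2, ← Real.rpow_mul hr.le, ← Real.rpow_natCast r (n - 2),
    ← Real.rpow_neg hr.le, Nat.cast_sub (by omega : 2 ≤ n)]
  congr 1
  push_cast
  ring

/-- HA-KER. -/
theorem ker : KerStm := by
  intro n hn ε hε
  have he : 0 < ε ^ 2 := by positivity
  have hn' : (3 : ℝ) ≤ n := by exact_mod_cast hn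
  have hSpos : ∀ s, 0 ≤ s → 0 < S n ε s := by
    intro s hs
    rcases le_total s (ε ^ 2) with h | h
    · have h1 := S_anti hn hε h
      rw [S_at] at h1
      exact lt_of_lt_of_le (Real.rpow_pos_of_pos he _) h1
    · have hs' : 0 < s := lt_of_lt_of_le he h
      rw [(S_le hn hε hs').2 h]
      exact Real.rpow_pos_of_pos hs' _
  -- derivatives
  have hD' : ∀ s, HasDerivAt (D n ε) (deriv (D n ε) s) s := fun s =>
    (((D_contDiff n hε).differentiable (by simp)) s).hasDerivAt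
  have hlap : ∀ x : V n, Δ (fun x : V n => S n ε (‖x‖ ^ 2)) x
      = 4 * ‖x‖ ^ 2 * (-(deriv (D n ε) (‖x‖ ^ 2))) + 2 * n * (-(D n ε (‖x‖ ^ 2))) :=
    laplacian_radial (S n ε) (fun s => -(D n ε s)) (fun s => -(deriv (D n ε) s))
      (S_hasDerivAt n hε) (fun s => (hD' s).neg)
  have hlap2 : ∀ x : V n, x ≠ 0 → Δ (fun x : V n => S n ε (‖x‖ ^ 2)) x
      = -(2 * ((n : ℝ) - 2) * (deriv (T ε) (‖x‖ ^ 2) * (‖x‖ ^ 2) ^ (-((n : ℝ) - 2) / 2))) := by
    intro x hx
    have hx' : 0 < ‖x‖ ^ 2 := by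
      have := norm_pos_iff.mpr hx
      positivity
    rw [hlap x, (D_hasDerivAt (n := n) (ε := ε) hx').deriv]
    set s := ‖x‖ ^ 2 with hs
    have e1 : s ^ (-(n : ℝ) / 2) = s * s ^ (-(n : ℝ) / 2 - 1) := by
      rw [Real.rpow_sub_one hx'.ne']
      field_simp
    have e2 : s ^ (-((n : ℝ) - 2) / 2) = s * s ^ (-(n : ℝ) / 2) := by
      have : (-(n : ℝ) / 2) = -((n : ℝ) - 2) / 2 - 1 := by ring
      rw [this, Real.rpow_sub_one hx'.ne']
      field_simp
    unfold D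
    rw [e2, e1]
    ring
  have hT' : ∀ s, 0 ≤ deriv (T ε) s := fun s => (T_mono hε).deriv_nonneg
  have hlap_nonpos : ∀ x : V n, Δ (fun x : V n => S n ε (‖x‖ ^ 2)) x ≤ 0 := by
    intro x
    rcases eq_or_ne x 0 with rfl | hx
    · rw [hlap]
      have : D n ε (‖(0 : V n)‖ ^ 2) = 0 := D_zero hε (by simp; positivity)
      rw [this]
      simp
    · rw [hlap2 x hx]
      have h1 := hT' (‖x‖ ^ 2)
      have h2 : 0 ≤ (‖x‖ ^ 2) ^ (-((n : ℝ) - 2) / 2) := Real.rpow_nonneg (by positivity) _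
      have h3 : 0 ≤ (n : ℝ) - 2 := by linarith
      have : 0 ≤ 2 * ((n : ℝ) - 2) * (deriv (T ε) (‖x‖ ^ 2)
        * (‖x‖ ^ 2) ^ (-((n : ℝ) - 2) / 2)) := by positivity
      linarith
  have hlap_zero : ∀ x : V n, ε < ‖x‖ → Δ (fun x : V n => S n ε (‖x‖ ^ 2)) x = 0 := by
    intro x hx
    have hx0 : x ≠ 0 := by
      rintro rfl
      simp at hx
      linarith
    rw [hlap2 x hx0]
    have hx2 : ε ^ 2 < ‖x‖ ^ 2 := by
      apply pow_lt_pow_left₀ hx hε.le (by norm_num)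
    have hev : T ε =ᶠ[𝓝 (‖x‖ ^ 2)] fun _ => (1 : ℝ) := by
      filter_upwards [Ioi_mem_nhds hx2] with t ht
      exact T_one hε (le_of_lt ht)
    rw [hev.deriv_eq]
    simp
  refine ⟨fun x => S n ε (‖x‖ ^ 2), ?_, ?_, ?_, ?_, ?_, hlap_nonpos, hlap_zero, ?_⟩
  · exact (S_contDiff n hε).comp (contDiff_norm_sq ℝ)
  · intro x
    exact hSpos _ (by positivity)
  · intro x hx
    have hx' : 0 < ‖x‖ := norm_pos_iff.mpr hx
    rw [← rpow_norm hn hx']
    exact (S_le hn hε (by positivity)).1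
  · intro x hx
    have hx' : 0 < ‖x‖ := lt_of_lt_of_le hε hx
    rw [← rpow_norm hn hx']
    exact (S_le hn hε (by positivity)).2 (by gcongr)
  · intro x y hxy
    exact S_anti hn hε (by gcongr)
  · -- integral is negative
    have hcont : Continuous (fun x : V n => -(Δ (fun x : V n => S n ε (‖x‖ ^ 2)) x)) := by
      have : (fun x : V n => -(Δ (fun x : V n => S n ε (‖x‖ ^ 2)) x))
          = fun x : V n => -(4 * ‖x‖ ^ 2 * (-(deriv (D n ε) (‖x‖ ^ 2)))
            + 2 * n * (-(D n ε (‖x‖ ^ 2)))) := by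
        funext x
        rw [hlap x]
      rw [this]
      have h1 : Continuous (D n ε) := (D_contDiff n hε).continuous
      have h2 : Continuous (deriv (D n ε)) := (D_contDiff n hε).continuous_deriv (by simp)
      fun_prop
    have hcomp : HasCompactSupport (fun x : V n => -(Δ (fun x : V n => S n ε (‖x‖ ^ 2)) x)) := by
      apply HasCompactSupport.intro (isCompact_closedBall (0 : V n) ε)
      intro x hx
      rw [hlap_zero x (by simpa using hx)]
      simp
    -- a point with nonzero Laplacian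
    have hlt : ε ^ 2 / 2 < ε ^ 2 := by linarith
    obtain ⟨c, hc, hc'⟩ := exists_deriv_eq_slope (T ε) hlt
      ((T_contDiff ε).continuous.continuousOn)
      (((T_contDiff ε).differentiable (by simp)).differentiableOn)
    have hcpos : 0 < c := lt_trans (by positivity) hc.1
    have hTc : 0 < deriv (T ε) c := by
      rw [hc', T_one hε le_rfl, T_zero hε le_rfl]
      have : 0 < ε ^ 2 - ε ^ 2 / 2 := by linarith
      positivity
    have hnpos : 0 < n := by omega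
    let x : V n := EuclideanSpace.single ⟨0, hnpos⟩ (√c)
    have hxn : ‖x‖ ^ 2 = c := by
      simp only [x]
      rw [PiLp.norm_single, Real.norm_eq_abs, sq_abs, Real.sq_sqrt hcpos.le]
    have hx0 : x ≠ 0 := by
      intro h
      rw [h] at hxn
      simp at hxn
      linarith
    have hpos := hcont.integral_pos_of_hasCompactSupport_nonneg_nonzero (μ := volume) hcomp
      (fun y => by
        have := hlap_nonpos y
        simp only [Pi.zero_apply]
        linarith) (x := x) (by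
        rw [hlap2 x hx0, hxn]
        have h2 : 0 < c ^ (-((n : ℝ) - 2) / 2) := Real.rpow_pos_of_pos hcpos _
        have h3 : 0 < (n : ℝ) - 2 := by linarith
        rw [neg_neg]
        positivity)
    rw [integral_neg] at hpos
    linarith

end Pool.Agent.R193.HA
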